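import Pool.Agent.Lib.MP_8ebc20_an.OwnC
import Pool.Agent.Lib.MP_8ebc20_an.OwnD
import Pool.Agent.Lib.MP_8ebc20_an.R.RealW

/-!
# MP_8ebc20_an: no finitely generated dense subgroup

There is a hyperbolic polynomial `f` of degree 7 with connected Julia set `J` such that no finitely
generated subgroup of `Homeo⁺(J)` is uniformly dense; quantitatively, for every `n` there are `ε > 0`
and `n + 1` elements of `Homeo⁺(J)` such that every subgroup generated by at most `n` elements of
`Homeo⁺(J)` stays at uniform distance at least `ε` from one of them.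
-/

set_option autoImplicit false

namespace Pool.Agent.Results.MP_8ebc20_an.NoDenseFinitelyGenerated

open Filter Topology

/-- The filled Julia set of the polynomial `f`: the points whose forward orbit stays bounded. -/
def filledJulia (f : Polynomial ℂ) : Set ℂ :=
  {z : ℂ | Bornology.IsBounded (Set.range fun n : ℕ => (fun w : ℂ => f.eval w)^[n] z)}

/-- The Julia set of `f`: the boundary of the filled Julia set. -/
def julia (f : Polynomial ℂ) : Set ℂ := frontier (filledJulia f)

/-- `f` is hyperbolic: the forward orbit of every critical point `c` converges to an attracting cycle,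
that is, there are a point `p` with `fⁿ(p) = p` (`n ≥ 1`) and `|(fⁿ)'(p)| < 1`, and a number `m` such
that `f^(m + n k)(c)` tends to `p` as `k → ∞`. -/
def IsHyperbolic (f : Polynomial ℂ) : Prop :=
  ∀ c : ℂ, f.derivative.eval c = 0 → ∃ (p : ℂ) (n m : ℕ), 1 ≤ n ∧
    (fun w : ℂ => f.eval w)^[n] p = p ∧ ‖deriv ((fun w : ℂ => f.eval w)^[n]) p‖ < 1 ∧
    Tendsto (fun k : ℕ => (fun w : ℂ => f.eval w)^[m + n * k] c) atTop (𝓝 p)

/-- The homeomorphism `Φ` of the plane is orientation-preserving: it maps every positively oriented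
circle (centre `z`, radius `r`) to a closed curve of winding number `+1` about `Φ(z)`, that is,
`t ↦ Φ(z + r e^(2πit)) - Φ(z)` has a continuous logarithm `L` on `[0,1]` with `L(1) - L(0) = 2πi`. -/
def OrientationPreserving (Φ : ℂ ≃ₜ ℂ) : Prop :=
  ∀ (z : ℂ) (r : ℝ), 0 < r → ∃ L : ℝ → ℂ, ContinuousOn L (Set.Icc 0 1) ∧
    (∀ t ∈ Set.Icc (0 : ℝ) 1, Complex.exp (L t) =
      Φ (z + r * Complex.exp (2 * Real.pi * t * Complex.I)) - Φ z) ∧
    L 1 - L 0 = 2 * Real.pi * Complex.I

/-- The homeomorphism `Φ` of the plane is isotopic to the identity. -/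
def IsotopicToId (Φ : ℂ ≃ₜ ℂ) : Prop :=
  ∃ H : unitInterval → (ℂ ≃ₜ ℂ), Continuous (fun p : unitInterval × ℂ => H p.1 p.2) ∧
    H 0 = Homeomorph.refl ℂ ∧ H 1 = Φ

/-- `g` belongs to `Homeo⁺(J)`: it extends to an orientation-preserving homeomorphism of the plane. -/
def HomeoPlus (J : Set ℂ) (g : J ≃ₜ J) : Prop :=
  ∃ Φ : ℂ ≃ₜ ℂ, OrientationPreserving Φ ∧ ∀ z : J, Φ (z : ℂ) = (g z : ℂ)

/-- There is a hyperbolic polynomial `f` of degree 7 with connected Julia set `J` with the following
property. For every `n` there are `ε > 0` and `n + 1` elements `k 0, ..., k n` of `Homeo⁺(J)` (they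
even extend to homeomorphisms of the plane isotopic to the identity) such that for every set `S` of at
most `n` elements of `Homeo⁺(J)` some `k i` has uniform distance at least `ε` from every element of
the subgroup generated by `S`. -/
theorem result : ∃ f : Polynomial ℂ, f.natDegree = 7 ∧ IsHyperbolic f ∧ IsConnected (julia f) ∧
    ∀ n : ℕ, ∃ ε : ℝ, 0 < ε ∧ ∃ k : Fin (n + 1) → (julia f ≃ₜ julia f),
      (∀ i, ∃ Φ : ℂ ≃ₜ ℂ, OrientationPreserving Φ ∧ IsotopicToId Φ ∧
        ∀ z : julia f, Φ (z : ℂ) = (k i z : ℂ)) ∧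
      ∀ S : Set (julia f ≃ₜ julia f), S.Finite → S.ncard ≤ n →
        (∀ g ∈ S, HomeoPlus (julia f) g) →
        ∃ i, ∀ g ∈ Subgroup.closure S, ∃ z : julia f, ε ≤ dist (g z : ℂ) (k i z : ℂ) := by
  obtain ⟨ψ, ψi, γ, h⟩ := Pool.Agent.JH.exists_real7w
  refine ⟨Pool.Agent.JH.g7, Pool.Agent.JH.natDegree_g7, fun c hc => Pool.Agent.JH.g7_attr hc,
    h.loop.conn_J, fun n => ?_⟩
  obtain ⟨ε, hε, k, hk, hmain⟩ := h.no_fg_n n
  refine ⟨ε, hε, k, fun i => ?_, fun S hS hn hg => hmain S hS hn hg⟩
  obtain ⟨Φ, h1, h2⟩ := hk i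
  exact ⟨Φ, h1.orP, h1, h2⟩

end Pool.Agent.Results.MP_8ebc20_an.NoDenseFinitelyGenerated
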